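import Pool.Agent.Helper86.FS.StartGoals

/-!
# Packet FS-START-W0C (project FS, MP_75608d_al)
-/

set_option autoImplicit false

namespace Pool.Agent.Helper30.FS

open Finset Pool.Agent.Helper86.FS

/-- counting tokens -/
theorem card_tok {m b : ℕ} (bad : Fin m → Fin m → Fin b → Prop) [∀ i i' a, Decidable (bad i i' a)]
    {C : ℝ} (h : ∀ i i', ((univ.filter fun a => bad i i' a).card : ℝ) ≤ C)
    (T : Finset (Fin m × Fin b)) (hT : ∀ p ∈ T, ∃ i', bad p.1 i' p.2) :
    (T.card : ℝ) ≤ (m : ℝ) ^ 2 * C := by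
  classical
  have hsub : T ⊆ (univ : Finset (Fin m × Fin m)).biUnion fun q =>
      (univ.filter fun a => bad q.1 q.2 a).image fun a => (q.1, a) := by
    intro p hp
    obtain ⟨i', hi'⟩ := hT p hp
    rw [mem_biUnion]
    refine ⟨(p.1, i'), mem_univ _, ?_⟩
    rw [mem_image]
    exact ⟨p.2, by simpa using hi', rfl⟩
  have h1 : T.card ≤ ∑ q : Fin m × Fin m, (univ.filter fun a => bad q.1 q.2 a).card :=
    (card_le_card hsub).trans (card_biUnion_le.trans (sum_le_sum fun q _ => card_image_le))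
  calc (T.card : ℝ) ≤ ((∑ q : Fin m × Fin m, (univ.filter fun a => bad q.1 q.2 a).card : ℕ) : ℝ) :=
        by exact_mod_cast h1
    _ = ∑ q : Fin m × Fin m, ((univ.filter fun a => bad q.1 q.2 a).card : ℝ) := by push_cast; rfl
    _ ≤ ∑ _q : Fin m × Fin m, C := sum_le_sum fun q _ => h q.1 q.2
    _ = (m : ℝ) ^ 2 * C := by
        rw [sum_const, nsmul_eq_mul, card_univ, Fintype.card_prod, Fintype.card_fin]
        push_cast
        ring

theorem card_ov {n b : ℕ} (x x' : Fin b ↪ Fin n) [DecidablePred fun a => ∃ a', x' a' = x a] :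
    (univ.filter fun a => ∃ a', x' a' = x a).card ≤ ov x x' := by
  classical
  unfold ov
  have : (univ.filter fun a => ∃ a', x' a' = x a).map x ⊆ univ.map x ∩ univ.map x' := by
    intro P hP
    rw [mem_map] at hP
    obtain ⟨a, ha, rfl⟩ := hP
    obtain ⟨a', ha'⟩ := (mem_filter.1 ha).2
    rw [mem_inter]
    exact ⟨mem_map_of_mem _ (mem_univ _), by rw [← ha']; exact mem_map_of_mem _ (mem_univ _)⟩
  have h1 := card_le_card this
  rwa [card_map] at h1

theorem w0c : W0CStmt := by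
  classical
  intro n b m B D ω hB hG hD
  obtain ⟨g1, g2, g3⟩ := hG
  -- spoiled tokens
  set b1 : Fin m → Fin m → Fin b → Prop := fun i i' a =>
    (i' ≠ i ∧ ∃ a', ω.1 i' a' = ω.1 i a) ∨ ∃ a', ω.2 i' a' = ω.1 i a with hb1
  set b2 : Fin m → Fin m → Fin b → Prop := fun i i' a =>
    (i' ≠ i ∧ ∃ a', ω.2 i' a' = ω.2 i a) ∨ ∃ a', ω.1 i' a' = ω.2 i a with hb2
  have ov_symm : ∀ x x' : Fin b ↪ Fin n, ov x x' = ov x' x := fun x x' => by
    unfold ov; rw [inter_comm]
  have c1 : ∀ i i', ((univ.filter fun a => b1 i i' a).card : ℝ) ≤ 2 * B := by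
    intro i i'
    have hs : (univ.filter fun a => b1 i i' a) ⊆
        (univ.filter fun a => i' ≠ i ∧ ∃ a', ω.1 i' a' = ω.1 i a) ∪
          (univ.filter fun a => ∃ a', ω.2 i' a' = ω.1 i a) := by
      intro a ha
      rw [mem_union, mem_filter, mem_filter]
      rcases (mem_filter.1 ha).2 with h | h
      · exact Or.inl ⟨mem_univ _, h⟩
      · exact Or.inr ⟨mem_univ _, h⟩
    have h1 : ((univ.filter fun a => i' ≠ i ∧ ∃ a', ω.1 i' a' = ω.1 i a).card : ℝ) ≤ B := by
      by_cases h : i' = i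
      · have : (univ.filter fun a => i' ≠ i ∧ ∃ a', ω.1 i' a' = ω.1 i a) = ∅ := by
          rw [filter_eq_empty_iff]
          rintro a - ⟨h3, -⟩
          exact h3 h
        rw [this]
        simpa using hB
      · refine le_trans ?_ (g2 i i' (Ne.symm h))
        refine Nat.cast_le.2 (le_trans (card_le_card ?_) (card_ov (ω.1 i) (ω.1 i')))
        intro a ha
        rw [mem_filter] at ha ⊢
        exact ⟨ha.1, ha.2.2⟩
    have h2 : ((univ.filter fun a => ∃ a', ω.2 i' a' = ω.1 i a).card : ℝ) ≤ B :=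
      le_trans (Nat.cast_le.2 (card_ov (ω.1 i) (ω.2 i'))) (g1 i i')
    have h3 : ((univ.filter fun a => b1 i i' a).card : ℝ) ≤
        ((univ.filter fun a => i' ≠ i ∧ ∃ a', ω.1 i' a' = ω.1 i a).card : ℝ) +
          ((univ.filter fun a => ∃ a', ω.2 i' a' = ω.1 i a).card : ℝ) := by
      exact_mod_cast (card_le_card hs).trans (card_union_le _ _)
    linarith
  have c2 : ∀ i i', ((univ.filter fun a => b2 i i' a).card : ℝ) ≤ 2 * B := by
    intro i i'
    have hs : (univ.filter fun a => b2 i i' a) ⊆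
        (univ.filter fun a => i' ≠ i ∧ ∃ a', ω.2 i' a' = ω.2 i a) ∪
          (univ.filter fun a => ∃ a', ω.1 i' a' = ω.2 i a) := by
      intro a ha
      rw [mem_union, mem_filter, mem_filter]
      rcases (mem_filter.1 ha).2 with h | h
      · exact Or.inl ⟨mem_univ _, h⟩
      · exact Or.inr ⟨mem_univ _, h⟩
    have h1 : ((univ.filter fun a => i' ≠ i ∧ ∃ a', ω.2 i' a' = ω.2 i a).card : ℝ) ≤ B := by
      by_cases h : i' = i
      · have : (univ.filter fun a => i' ≠ i ∧ ∃ a', ω.2 i' a' = ω.2 i a) = ∅ := by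
          rw [filter_eq_empty_iff]
          rintro a - ⟨h3, -⟩
          exact h3 h
        rw [this]
        simpa using hB
      · refine le_trans ?_ (g3 i i' (Ne.symm h))
        refine Nat.cast_le.2 (le_trans (card_le_card ?_) (card_ov (ω.2 i) (ω.2 i')))
        intro a ha
        rw [mem_filter] at ha ⊢
        exact ⟨ha.1, ha.2.2⟩
    have h2 : ((univ.filter fun a => ∃ a', ω.1 i' a' = ω.2 i a).card : ℝ) ≤ B := by
      refine le_trans (Nat.cast_le.2 (card_ov (ω.2 i) (ω.1 i'))) ?_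
      rw [ov_symm]
      exact g1 i' i
    have h3 : ((univ.filter fun a => b2 i i' a).card : ℝ) ≤
        ((univ.filter fun a => i' ≠ i ∧ ∃ a', ω.2 i' a' = ω.2 i a).card : ℝ) +
          ((univ.filter fun a => ∃ a', ω.1 i' a' = ω.2 i a).card : ℝ) := by
      exact_mod_cast (card_le_card hs).trans (card_union_le _ _)
    linarith
  set T1 : Finset (Fin m × Fin b) := univ.filter fun p => ∃ i', b1 p.1 i' p.2 with hT1
  set T2 : Finset (Fin m × Fin b) := univ.filter fun p => ∃ i', b2 p.1 i' p.2 with hT2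
  have t1 : (T1.card : ℝ) ≤ (m : ℝ) ^ 2 * (2 * B) :=
    card_tok b1 c1 T1 fun p hp => (mem_filter.1 hp).2
  have t2 : (T2.card : ℝ) ≤ (m : ℝ) ^ 2 * (2 * B) :=
    card_tok b2 c2 T2 fun p hp => (mem_filter.1 hp).2
  -- the pairs
  set A : Finset (Ix b m × Fin b) := univ.filter fun q => q.1 ∉ D with hA
  set S1 : Finset (Ix b m × Fin b) := univ.filter fun q => (q.1.1, q.1.2.1) ∈ T1 with hS1
  set S2 : Finset (Ix b m × Fin b) := univ.filter fun q => (q.1.2.2, q.2) ∈ T2 with hS2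
  have hAc : (A.card : ℝ) = ((m : ℝ) ^ 2 * b - D.card) * b := by
    have e1 : A = (univ \ D) ×ˢ (univ : Finset (Fin b)) := by
      ext q
      simp [hA]
    rw [e1, card_product, card_univ, Fintype.card_fin, card_sdiff_of_subset (subset_univ _),
      card_univ]
    have e2 : Fintype.card (Ix b m) = m * (b * m) := by
      simp [Ix, Fintype.card_prod]
    have e3 : D.card ≤ m * (b * m) := by rw [← e2]; exact card_le_univ D
    rw [e2]
    push_cast [Nat.cast_sub e3]
    ring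
  have hS1c : (S1.card : ℝ) ≤ (T1.card : ℝ) * (m * b) := by
    have h1 : S1.card ≤ (T1 ×ˢ (univ : Finset (Fin m × Fin b))).card := by
      refine card_le_card_of_injOn (fun q => ((q.1.1, q.1.2.1), (q.1.2.2, q.2))) ?_ ?_
      · intro q hq
        rw [mem_coe, mem_product]
        exact ⟨(mem_filter.1 hq).2, mem_univ _⟩
      · rintro ⟨⟨i, a, i'⟩, a'⟩ - ⟨⟨j, c, j'⟩, c'⟩ - h
        simp only [Prod.mk.injEq] at h ⊢
        tauto
    rw [card_product, card_univ, Fintype.card_prod, Fintype.card_fin, Fintype.card_fin] at h1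
    exact_mod_cast h1
  have hS2c : (S2.card : ℝ) ≤ (T2.card : ℝ) * (m * b) := by
    have h1 : S2.card ≤ (T2 ×ˢ (univ : Finset (Fin m × Fin b))).card := by
      refine card_le_card_of_injOn (fun q => ((q.1.2.2, q.2), (q.1.1, q.1.2.1))) ?_ ?_
      · intro q hq
        rw [mem_coe, mem_product]
        exact ⟨(mem_filter.1 hq).2, mem_univ _⟩
      · rintro ⟨⟨i, a, i'⟩, a'⟩ - ⟨⟨j, c, j'⟩, c'⟩ - h
        simp only [Prod.mk.injEq] at h ⊢
        tauto
    rw [card_product, card_univ, Fintype.card_prod, Fintype.card_fin, Fintype.card_fin] at h1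
    exact_mod_cast h1
  -- good pairs
  have clean1 : ∀ q : Ix b m × Fin b, q ∉ S1 →
      (∀ i a, ω.1 i a = ω.1 q.1.1 q.1.2.1 → i = q.1.1) ∧
      (∀ i a, ω.2 i a ≠ ω.1 q.1.1 q.1.2.1) := by
    intro q hq
    have h0 : ¬ ∃ i', b1 q.1.1 i' q.1.2.1 := by
      intro h
      exact hq (mem_filter.2 ⟨mem_univ _, mem_filter.2 ⟨mem_univ _, h⟩⟩)
    constructor
    · intro i a hia
      by_contra h
      exact h0 ⟨i, Or.inl ⟨h, a, hia⟩⟩
    · intro i a hia
      exact h0 ⟨i, Or.inr ⟨a, hia⟩⟩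
  have clean2 : ∀ q : Ix b m × Fin b, q ∉ S2 →
      (∀ i a, ω.2 i a = ω.2 q.1.2.2 q.2 → i = q.1.2.2) ∧
      (∀ i a, ω.1 i a ≠ ω.2 q.1.2.2 q.2) := by
    intro q hq
    have h0 : ¬ ∃ i', b2 q.1.2.2 i' q.2 := by
      intro h
      exact hq (mem_filter.2 ⟨mem_univ _, mem_filter.2 ⟨mem_univ _, h⟩⟩)
    constructor
    · intro i a hia
      by_contra h
      exact h0 ⟨i, Or.inl ⟨h, a, hia⟩⟩
    · intro i a hia
      exact h0 ⟨i, Or.inr ⟨a, hia⟩⟩
  have hW : (A \ (S1 ∪ S2)).card ≤ (W0 D ω).card := by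
    refine card_le_card_of_injOn (fun q => (ω.1 q.1.1 q.1.2.1, ω.2 q.1.2.2 q.2)) ?_ ?_
    · intro q hq
      rw [mem_coe, mem_sdiff, mem_union, not_or] at hq
      obtain ⟨hqA, h1, h2⟩ := hq
      rw [mem_coe]
      unfold W0
      rw [mem_filter]
      obtain ⟨k1, k2⟩ := clean1 q h1
      obtain ⟨k3, k4⟩ := clean2 q h2
      exact ⟨mem_univ _, q.1, q.2, (mem_filter.1 hqA).2, rfl, rfl, k1, k2, k4, k3⟩
    · intro q hq q' hq' h
      rw [mem_coe, mem_sdiff, mem_union, not_or] at hq hq'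
      obtain ⟨k1, -⟩ := clean1 q' hq'.2.1
      obtain ⟨k3, -⟩ := clean2 q' hq'.2.2
      simp only [Prod.mk.injEq] at h
      obtain ⟨h1, h2⟩ := h
      have e1 := k1 _ _ h1
      have e2 := k3 _ _ h2
      obtain ⟨⟨i, a, i'⟩, a'⟩ := q
      obtain ⟨⟨j, c, j'⟩, c'⟩ := q'
      simp only at e1 e2 h1 h2
      subst e1
      subst e2
      have e3 := (ω.1 i).injective h1
      have e4 := (ω.2 i').injective h2
      rw [e3, e4]
  have hfin : (A.card : ℝ) ≤ ((W0 D ω).card : ℝ) + (S1.card : ℝ) + (S2.card : ℝ) := by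
    have h1 : A.card ≤ (A \ (S1 ∪ S2)).card + (S1 ∪ S2).card := by
      have := card_le_card (s := A) (t := (A \ (S1 ∪ S2)) ∪ (S1 ∪ S2)) (by
        intro q hq
        by_cases h : q ∈ S1 ∪ S2
        · exact mem_union_right _ h
        · exact mem_union_left _ (mem_sdiff.2 ⟨hq, h⟩))
      exact this.trans (card_union_le _ _)
    have h2 := card_union_le S1 S2
    have h3 : A.card ≤ (W0 D ω).card + S1.card + S2.card := by omega
    exact_mod_cast h3
  have hD' : (2 : ℝ) * D.card ≤ (m : ℝ) ^ 2 * b + 1 := by exact_mod_cast hD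
  have hb0 : (0 : ℝ) ≤ b := Nat.cast_nonneg _
  have hm0 : (0 : ℝ) ≤ m := Nat.cast_nonneg _
  have k1 : (T1.card : ℝ) * (m * b) ≤ (m : ℝ) ^ 2 * (2 * B) * (m * b) :=
    mul_le_mul_of_nonneg_right t1 (by positivity)
  have k2 : (T2.card : ℝ) * (m * b) ≤ (m : ℝ) ^ 2 * (2 * B) * (m * b) :=
    mul_le_mul_of_nonneg_right t2 (by positivity)
  have k3 : (2 : ℝ) * D.card * b ≤ ((m : ℝ) ^ 2 * b + 1) * b := mul_le_mul_of_nonneg_right hD' hb0
  rw [hAc] at hfin
  nlinarith [hfin, hS1c, hS2c, k1, k2, k3]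

end Pool.Agent.Helper30.FS
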